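import Pool.Agent.Y973.MO.Main

/-!
# MP_a187e6_nt: MO functions with prescribed local factors and partial sums `O(x^(-1/2-c))`

There is an absolute constant `c > 0` such that the local factors `(f(p^k))_k` at the primes
`p < y`, `y` arbitrary, can be prescribed for an MO function `f` with `S_f(x) = O(x^(-1/2-c))`: the
only conditions are `f(1) = 1`, that the sum of the local factor is nonzero (which is part of the
definition of MO functions), and `∑_k |f(p^k)| p^(k(1/2+c)) < ∞` (the values have to be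
`O(p^(-k(1/2+c)))` when `S_f(x) = O(x^(-1/2-c))`).
-/

set_option autoImplicit false

namespace Pool.Agent.Results.MP_a187e6_nt.PrescribedLocalFactors

open Filter Topology Finset Asymptotics

/-- `f` (only its values at `n ≥ 1` matter) is an MO function: multiplicative, with
`∑ f(n)` convergent to `0`, and `∑_k f(p ^ k)` convergent to a nonzero value for every prime `p` -/
structure IsMO (f : ℕ → ℂ) : Prop where
  one : f 1 = 1
  mul : ∀ m n : ℕ, 1 ≤ m → 1 ≤ n → Nat.Coprime m n → f (m * n) = f m * f n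
  sum_zero : Tendsto (fun N : ℕ => ∑ n ∈ Icc 1 N, f n) atTop (𝓝 0)
  local_ne_zero : ∀ p : ℕ, p.Prime →
    ∃ L : ℂ, L ≠ 0 ∧ Tendsto (fun K : ℕ => ∑ k ∈ range K, f (p ^ k)) atTop (𝓝 L)

/-- the partial sum `S_f(x) = ∑_{n ≤ x} f(n)` -/
noncomputable def partialSum (f : ℕ → ℂ) (x : ℝ) : ℂ := ∑ n ∈ Icc 1 ⌊x⌋₊, f n

/-- There is an absolute constant `c > 0` such that for every `y` and all complex numbers `a p k`
(`p < y` prime, `k ≥ 0`) with `a p 0 = 1`, `∑_k |a p k| p^(k(1/2+c)) < ∞` and `∑_k a p k ≠ 0` there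
are an MO function `f` with `f(p^k) = a p k` for all primes `p < y` and all `k`, and a constant `C`
with `|S_f(x)| ≤ C x^(-1/2-c)` for every `x ≥ 1`; in particular `S_f(x) = o(1/√x)`. -/
theorem result : ∃ c : ℝ, 0 < c ∧ ∀ (y : ℕ) (a : ℕ → ℕ → ℂ),
    (∀ p : ℕ, p.Prime → p < y → a p 0 = 1 ∧
      Summable (fun k : ℕ => ‖a p k‖ * (p : ℝ) ^ ((1 / 2 + c) * k)) ∧ ∑' k : ℕ, a p k ≠ 0) →
    ∃ f : ℕ → ℂ, IsMO f ∧
      (∀ p : ℕ, p.Prime → p < y → ∀ k : ℕ, f (p ^ k) = a p k) ∧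
      (∃ C : ℝ, ∀ x : ℝ, 1 ≤ x → ‖partialSum f x‖ ≤ C * x ^ (-(1 / 2 : ℝ) - c)) ∧
      (partialSum f) =o[atTop] (fun x : ℝ => x ^ (-(1 / 2 : ℝ))) := by
  obtain ⟨c, hc, h⟩ := Pool.Agent.Y973.MO.main
  refine ⟨c, hc, fun y a ha => ?_⟩
  obtain ⟨f, h1, h2, h3, h4, h5, C, hC, hb⟩ := h y a ha
  have hb' : ∀ x : ℝ, 1 ≤ x → ‖partialSum f x‖ ≤ C * x ^ (-(1 / 2 : ℝ) - c) := hb
  refine ⟨f, ⟨h1, h2, h3, h4⟩, h5, ⟨C, hb'⟩, ?_⟩
  have e1 : (partialSum f) =O[atTop] (fun x : ℝ => x ^ (-(1 / 2 : ℝ) - c)) := by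
    refine IsBigO.of_bound C ?_
    filter_upwards [eventually_ge_atTop (1 : ℝ)] with x hx
    rw [Real.norm_of_nonneg (by positivity)]
    exact hb' x hx
  refine e1.trans_isLittleO ?_
  rw [isLittleO_iff_tendsto']
  · have h6 : Tendsto (fun x : ℝ => x ^ (-c)) atTop (𝓝 0) := tendsto_rpow_neg_atTop hc
    refine h6.congr' ?_
    filter_upwards [eventually_gt_atTop (0 : ℝ)] with x hx
    rw [← Real.rpow_sub hx]
    congr 1
    ring
  · filter_upwards [eventually_gt_atTop (0 : ℝ)] with x hx h0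
    exact absurd h0 (by positivity)

end Pool.Agent.Results.MP_a187e6_nt.PrescribedLocalFactors
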